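import Mathlib

set_option autoImplicit false

namespace Pool.Agent.H.EO

open SimpleGraph Finset

def F : SimpleGraph (Fin 7) := pathGraph 7

instance : DecidableRel F.Adj := fun u v => decidable_of_iff _ (pathGraph_adj (u := u) (v := v)).symm

def lab : Sym2 (Fin 7) → ℕ :=
  Sym2.lift ⟨fun a b => ![4, 1, 2, 5, 6, 3, 0] (min a b), fun a b => by simp only [min_comm]⟩

lemma F_acyc : F.IsAcyclic := by
  refine ((isTree_iff_connected_and_card (G := F)).2 ⟨pathGraph_connected 6, ?_⟩).isAcyclic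
  rw [Nat.card_eq_fintype_card, Nat.card_eq_fintype_card, ← edgeFinset_card]
  decide

lemma F_edge : ∀ e ∈ F.edgeSet, e = s(0, 1) ∨ e = s(1, 2) ∨ e = s(2, 3) ∨ e = s(3, 4) ∨
    e = s(4, 5) ∨ e = s(5, 6) := by
  intro e
  induction e using Sym2.ind with
  | _ a b => rw [mem_edgeSet]; revert a b; decide

lemma lab_inj : Set.InjOn lab F.edgeSet := by
  intro e he f hf
  rcases F_edge e he with rfl | rfl | rfl | rfl | rfl | rfl <;>
  rcases F_edge f hf with rfl | rfl | rfl | rfl | rfl | rfl <;> decide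

def Has {V : Type} (G : SimpleGraph V) (M : Sym2 V → ℕ) : Prop :=
  ∃ φ : Fin 7 → V, Function.Injective φ ∧ (∀ u v, F.Adj u v → G.Adj (φ u) (φ v)) ∧
    ∀ e₁ ∈ F.edgeSet, ∀ e₂ ∈ F.edgeSet, lab e₁ < lab e₂ → M (Sym2.map φ e₁) < M (Sym2.map φ e₂)

lemma has_of {V : Type} {G : SimpleGraph V} {M : Sym2 V → ℕ} (φ : Fin 7 → V)
    (h : Function.Injective φ) (a0 : G.Adj (φ 0) (φ 1)) (a1 : G.Adj (φ 1) (φ 2))
    (a2 : G.Adj (φ 2) (φ 3)) (a3 : G.Adj (φ 3) (φ 4)) (a4 : G.Adj (φ 4) (φ 5))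
    (a5 : G.Adj (φ 5) (φ 6)) (l1 : M s(φ 1, φ 2) < M s(φ 2, φ 3))
    (l2 : M s(φ 2, φ 3) < M s(φ 5, φ 6)) (l3 : M s(φ 5, φ 6) < M s(φ 0, φ 1))
    (l4 : M s(φ 0, φ 1) < M s(φ 3, φ 4)) (l5 : M s(φ 3, φ 4) < M s(φ 4, φ 5)) : Has G M := by
  refine ⟨φ, h, fun u v huv => ?_, fun e he f hf => ?_⟩
  · have : s(φ u, φ v) ∈ G.edgeSet := by
      rw [← Sym2.map_mk]
      rcases F_edge s(u, v) huv with k | k | k | k | k | k <;> rw [k] <;> assumption
    exact this
  · rcases F_edge e he with rfl | rfl | rfl | rfl | rfl | rfl <;>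
    rcases F_edge f hf with rfl | rfl | rfl | rfl | rfl | rfl <;> intro k <;>
    first | exact absurd k (by decide) | (simp only [Sym2.map_mk]; omega)

lemma few {V α : Type} [Fintype V] [LinearOrder α] (R : Finset V) (A : V → Finset V)
    [DecidableEq V] (key : V → V → α)
    (hk : ∀ c, ∀ r r', c ∈ A r → c ∈ A r' → key r c = key r' c → r = r') :
    ∑ r ∈ R, #{c ∈ A r | #{r' ∈ R | c ∈ A r' ∧ key r' c < key r c} < 3} ≤ 3 * Fintype.card V := by
  have : ∀ r, #{c ∈ A r | #{r' ∈ R | c ∈ A r' ∧ key r' c < key r c} < 3} =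
      ∑ c, if c ∈ A r ∧ #{r' ∈ R | c ∈ A r' ∧ key r' c < key r c} < 3 then 1 else 0 := by
    intro r
    rw [← card_filter]; congr 1; ext c; simp
  simp only [this]
  rw [sum_comm, mul_comm, ← smul_eq_mul, ← card_univ]
  refine sum_le_card_nsmul _ _ _ fun c _ => ?_
  rw [← card_filter]
  have mono : ∀ r r', r ∈ R → c ∈ A r → key r c < key r' c →
      #{x ∈ R | c ∈ A x ∧ key x c < key r c} < #{x ∈ R | c ∈ A x ∧ key x c < key r' c} := by
    intro r r' h1 h2 h3
    refine card_lt_card ⟨fun x hx => ?_, fun k => ?_⟩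
    · simp only [mem_filter] at hx ⊢
      exact ⟨hx.1, hx.2.1, hx.2.2.trans h3⟩
    · simpa using k (mem_filter.2 ⟨h1, h2, h3⟩)
  refine (card_le_card_of_injOn (t := range 3)
    (fun r => #{r' ∈ R | c ∈ A r' ∧ key r' c < key r c}) (fun r hr => ?_) ?_).trans (by simp)
  · simpa using (mem_filter.1 hr).2.2
  · intro r hr r' hr' e
    have h1 := mem_filter.1 hr
    have h2 := mem_filter.1 hr'
    rcases lt_trichotomy (key r c) (key r' c) with k | k | k
    · exact absurd e (mono r r' h1.1 h1.2.1 k).ne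
    · exact hk c r r' h1.2.1 h2.2.1 k
    · exact absurd e (mono r' r h2.1 h2.2.1 k).ne'

lemma avoid {V : Type} [DecidableEq V] (A B : Finset V) (h : #B < #A) : ∃ a ∈ A, a ∉ B := by
  by_contra k
  push Not at k
  exact (card_le_card k).not_gt h

lemma embed {V : Type} [Fintype V] [DecidableEq V] {G : SimpleGraph V} {M : Sym2 V → ℕ}
    (hM : Set.InjOn M G.edgeSet) (R : Finset V) (A : Fin 4 → V → Finset V) (D : ℕ)
    (hA : ∀ i v, ∀ w ∈ A i v, G.Adj v w) (hD : ∀ i, ∀ v ∈ R, D + 6 ≤ #(A i v))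
    (hl : ∀ i j, i < j → ∀ v v', ∀ w ∈ A i v, ∀ w' ∈ A j v', M s(v, w) < M s(v', w'))
    (hR : 6 * Fintype.card V < D * #R) : Has G M := by
  have inj : ∀ i c r r', c ∈ A i r → c ∈ A i r' → M s(r, c) = M s(r', c) → r = r' :=
    fun i c r r' h h' e => Sym2.congr_left.1 (hM (hA _ _ _ h) (hA _ _ _ h') e)
  have f1 := few R (A 0) (fun r c => M s(r, c)) (inj 0)
  have f2 := few R (A 3) (fun r c => OrderDual.toDual (M s(r, c))) (inj 3)
  simp only [OrderDual.toDual_lt_toDual] at f2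
  have : ∃ r ∈ R, #{c ∈ A 0 r | #{r' ∈ R | c ∈ A 0 r' ∧ M s(r', c) < M s(r, c)} < 3} +
      #{c ∈ A 3 r | #{r' ∈ R | c ∈ A 3 r' ∧ M s(r, c) < M s(r', c)} < 3} < D := by
    by_contra k
    push Not at k
    have := card_nsmul_le_sum _ _ _ k
    rw [sum_add_distrib, smul_eq_mul, mul_comm] at this
    omega
  obtain ⟨r2, hr2, h⟩ := this
  obtain ⟨c1, hc1, k1⟩ := avoid (A 0 r2) _ (lt_of_le_of_lt (Nat.le_add_right _ _)
    (h.trans_le (le_trans (Nat.le_add_right _ _) (hD 0 r2 hr2))))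
  obtain ⟨c4, hc4, k4⟩ := avoid (A 3 r2) (insert c1
      {c ∈ A 3 r2 | #{r' ∈ R | c ∈ A 3 r' ∧ M s(r2, c) < M s(r', c)} < 3})
    ((card_insert_le _ _).trans_lt (by have := hD 3 r2 hr2; omega))
  simp only [mem_filter, hc1, hc4, true_and, not_lt, mem_insert, not_or] at k1 k4
  obtain ⟨r1, hr1, n1⟩ := avoid _ {c4} (lt_of_lt_of_le (by simp) k1)
  obtain ⟨r3, hr3, n3⟩ := avoid _ {c1, r1} (lt_of_lt_of_le (card_le_two.trans_lt (by simp)) k4.2)
  simp only [mem_filter] at hr1 hr3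
  have c5 : ∀ a b c d e : V, #({a, b, c, d, e} : Finset V) ≤ 5 := fun a b c d e =>
    (card_insert_le _ _).trans (Nat.succ_le_succ ((card_insert_le _ _).trans
      (Nat.succ_le_succ card_le_three)))
  obtain ⟨c2, hc2, n2⟩ := avoid (A 1 r3) {r1, r2, c1, c4, c4}
    ((c5 ..).trans_lt (by have := hD 1 r3 hr3.1; omega))
  obtain ⟨c3, hc3, n4⟩ := avoid (A 2 r1) {r3, r2, c1, c4, c2}
    ((c5 ..).trans_lt (by have := hD 2 r1 hr1.1; omega))
  have e1 := hA _ _ _ hc1
  have e2 := hA _ _ _ hc4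
  have e3 := hA _ _ _ hr1.2.1
  have e4 := hA _ _ _ hr3.2.1
  have e5 := hA _ _ _ hc2
  have e6 := hA _ _ _ hc3
  have m1 : r1 ≠ r2 := fun e => by simp [e] at hr1
  have m2 : r3 ≠ r2 := fun e => by simp [e] at hr3
  simp only [mem_insert, mem_singleton, not_or] at n1 n2 n3 n4
  refine has_of ![c3, r1, c1, r2, c4, r3, c2] ?_ e6.symm e3 e1.symm e2 e4.symm e5 ?_ ?_ ?_ ?_ ?_
  · rw [← List.nodup_ofFn]
    have := e1.ne; have := e2.ne; have := e3.ne; have := e4.ne; have := e5.ne; have := e6.ne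
    simp only [List.ofFn_succ, List.ofFn_zero, List.nodup_cons, List.mem_cons, List.not_mem_nil,
      Matrix.cons_val_zero, Matrix.cons_val_succ, List.nodup_nil]
    grind
  · show M s(r1, c1) < M s(c1, r2)
    rw [Sym2.eq_swap (a := c1)]; exact hr1.2.2
  · show M s(c1, r2) < M s(r3, c2)
    rw [Sym2.eq_swap (a := c1)]; exact hl 0 1 (by decide) _ _ _ hc1 _ hc2
  · show M s(r3, c2) < M s(c3, r1)
    rw [Sym2.eq_swap (a := c3)]; exact hl 1 2 (by decide) _ _ _ hc2 _ hc3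
  · show M s(c3, r1) < M s(r2, c4)
    rw [Sym2.eq_swap (a := c3)]; exact hl 2 3 (by decide) _ _ _ hc3 _ hc4
  · show M s(r2, c4) < M s(c4, r3)
    rw [Sym2.eq_swap (a := c4)]; exact hr3.2.2

theorem upper {V : Type} [Fintype V] {G : SimpleGraph V} {M : Sym2 V → ℕ}
    (hM : Set.InjOn M G.edgeSet) (h : ¬ Has G M) (k : ℕ) (hk : 0 < k) (hn : k ≤ Fintype.card V) :
    k * G.edgeSet.ncard ≤ 8 * Fintype.card V ^ 2 +
      k * (Fintype.card V * (k ^ 2 * (6 * (k ^ 2) ^ 5 + 6))) := by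
  classical
  set n := Fintype.card V
  set K := k ^ 2 with hK
  have K0 : 0 < K := by positivity
  let L := n ^ 2 / K + 1
  have L0 : 0 < L := Nat.succ_pos _
  let ρ : Sym2 V → ℕ := fun e => #{f ∈ G.edgeFinset | M f < M e}
  have ρm : ∀ e f, M e ≤ M f → ρ e ≤ ρ f := fun e f h => card_le_card fun x hx => by
    simp only [mem_filter] at hx ⊢
    exact ⟨hx.1, hx.2.trans_le h⟩
  have ρs : ∀ e ∈ G.edgeSet, ∀ f, M e < M f → ρ e < ρ f := fun e he f h =>
    card_lt_card ⟨fun x hx => by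
      simp only [mem_filter] at hx ⊢
      exact ⟨hx.1, hx.2.trans h⟩, fun k => by
        simpa using k (mem_filter.2 ⟨mem_edgeFinset.2 he, h⟩)⟩
  have ρb : ∀ e, ρ e / L < K := by
    intro e
    have : ρ e ≤ n ^ 2 := (card_filter_le _ _).trans
      (card_edgeFinset_le_card_choose_two.trans (Nat.choose_le_pow _ _))
    rw [Nat.div_lt_iff_lt_mul L0]
    exact this.trans_lt (Nat.lt_mul_div_succ _ K0)
  let A : ℕ → V → Finset V := fun j v => {w | G.Adj v w ∧ ρ s(v, w) / L = j}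
  let D := 6 * K ^ 5
  let U : ℕ → Finset V := fun j => {v | D + 6 ≤ #(A j v)}
  let X : ℕ → Finset (Sym2 V) := fun j =>
    {e ∈ (U j ×ˢ U j).image fun p => s(p.1, p.2) | e ∈ G.edgeSet ∧ ρ e / L = j}
  let Y : V × ℕ → Finset (Sym2 V) := fun p =>
    if p.1 ∈ U p.2 then ∅ else (A p.2 p.1).image fun w => s(p.1, w)
  have cov : G.edgeFinset ⊆ (range K).biUnion X ∪ (univ ×ˢ range K).biUnion Y := by
    intro e he
    induction e using Sym2.ind with
    | _ v w =>
    rw [mem_edgeFinset] at he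
    simp only [mem_union, mem_biUnion]
    by_cases h1 : v ∈ U (ρ s(v, w) / L)
    · by_cases h2 : w ∈ U (ρ s(v, w) / L)
      · exact .inl ⟨_, mem_range.2 (ρb _), mem_filter.2
          ⟨mem_image.2 ⟨(v, w), mem_product.2 ⟨h1, h2⟩, rfl⟩, he, rfl⟩⟩
      · refine .inr ⟨(w, ρ s(v, w) / L), by simp [ρb], ?_⟩
        simp only [Y, if_neg h2]
        exact mem_image.2 ⟨v, mem_filter.2 ⟨mem_univ _, Adj.symm he, by rw [Sym2.eq_swap]⟩,
          Sym2.eq_swap⟩
    · refine .inr ⟨(v, ρ s(v, w) / L), by simp [ρb], ?_⟩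
      simp only [Y, if_neg h1]
      exact mem_image.2 ⟨w, mem_filter.2 ⟨mem_univ _, he, rfl⟩, rfl⟩
  have hY : #((univ ×ˢ range K).biUnion Y) ≤ n * (K * (D + 6)) := by
    refine (card_biUnion_le_card_mul _ _ (D + 6) fun p _ => ?_).trans (by simp [n, mul_assoc])
    simp only [Y]
    split_ifs with h
    · simp
    · exact card_image_le.trans (le_of_lt (by simpa [U] using h))
  have hX : ∀ j, k * #(X j) ≤ 2 * n * #(U j) := by
    intro j
    have x1 : #(X j) ≤ #(U j) * #(U j) :=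
      (card_filter_le _ _).trans (card_image_le.trans (card_product _ _).le)
    have x2 : #(X j) ≤ L := by
      refine (card_le_card_of_injOn (t := Ico (j * L) (j * L + L)) ρ (fun e he => ?_) ?_).trans
        (by simp)
      · obtain ⟨-, -, rfl⟩ := mem_filter.1 he
        simpa using ⟨Nat.div_mul_le_self _ _, Nat.lt_div_mul_add L0⟩
      · intro e he f hf q
        have h1 := (mem_filter.1 he).2.1
        have h2 := (mem_filter.1 hf).2.1
        rcases lt_trichotomy (M e) (M f) with k | k | k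
        · exact absurd q (ρs e h1 f k).ne
        · exact hM h1 h2 k
        · exact absurd q (ρs f h2 e k).ne'
    by_cases c : k * #(U j) ≤ 2 * n
    · nlinarith
    · have x3 : K * L ≤ 2 * n ^ 2 := by
        have : K * (n ^ 2 / K) ≤ n ^ 2 := Nat.mul_div_le _ _
        have : K ≤ n ^ 2 := Nat.pow_le_pow_left hn 2
        simp only [L]; nlinarith
      refine Nat.le_of_mul_le_mul_left ?_ hk
      have : K * #(X j) ≤ K * L := Nat.mul_le_mul_left _ x2
      rw [← mul_assoc, ← sq, ← hK]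
      nlinarith
  have hU : ∑ j ∈ range K, #(U j) ≤ 4 * n := by
    let H : V → Finset (Fin K) := fun v => {j | v ∈ U j}
    have e1 : ∑ j ∈ range K, #(U j) = ∑ v, #(H v) := by
      rw [sum_range]
      simp only [H, card_filter]
      rw [sum_comm]
      exact sum_congr rfl fun j _ => by simp
    let R : (Fin 4 → Fin K) → Finset V := fun t => {v | StrictMono t ∧ ∀ i, v ∈ U (t i)}
    have hR : ∀ t, K ^ 5 * #(R t) ≤ n := by
      intro t
      by_contra c
      have c' : 0 < #(R t) := by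
        rcases Nat.eq_zero_or_pos #(R t) with q | q
        · simp [q] at c
        · exact q
      obtain ⟨v, hv⟩ := card_pos.1 c'
      refine h (embed hM (R t) (fun i => A (t i)) D (fun i v w hw => (mem_filter.1 hw).2.1)
        (fun i v hv => (mem_filter.1 ((mem_filter.1 hv).2.2 i)).2) ?_ (by simp only [D]; nlinarith))
      intro i j hij v v' w hw w' hw'
      by_contra q
      have := Nat.div_le_div_right (c := L) (ρm _ _ (not_lt.1 q))
      rw [(mem_filter.1 hw).2.2, (mem_filter.1 hw').2.2] at this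
      exact absurd ((mem_filter.1 hv).2.1 hij) (not_lt.2 this)
    have e2 : ({v | 4 ≤ #(H v)} : Finset V) ⊆ univ.biUnion R := fun v hv =>
      mem_biUnion.2 ⟨(H v).orderEmbOfCardLe (mem_filter.1 hv).2, mem_univ _,
        mem_filter.2 ⟨mem_univ _, OrderEmbedding.strictMono _,
          fun i => by simpa [H] using orderEmbOfCardLe_mem (H v) (mem_filter.1 hv).2 i⟩⟩
    have e3 : K ^ 5 * #({v | 4 ≤ #(H v)} : Finset V) ≤ K ^ 4 * n := by
      refine (Nat.mul_le_mul_left _ ((card_le_card e2).trans card_biUnion_le)).trans ?_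
      rw [mul_sum]
      exact (sum_le_card_nsmul _ _ _ fun t _ => hR t).trans (by simp)
    have e4 : K * #({v | 4 ≤ #(H v)} : Finset V) ≤ n :=
      Nat.le_of_mul_le_mul_left (by rw [← mul_assoc, ← pow_succ]; exact e3) (pow_pos K0 4)
    have e5 : ∑ v, #(H v) ≤ ∑ v, (3 + if 4 ≤ #(H v) then K else 0) := sum_le_sum fun v _ => by
      have : #(H v) ≤ K := (card_le_univ _).trans (by simp)
      split_ifs <;> omega
    rw [sum_add_distrib, ← sum_filter, sum_const, sum_const, smul_eq_mul, smul_eq_mul,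
      card_univ] at e5
    rw [mul_comm] at e4
    omega
  have hX' : k * #((range K).biUnion X) ≤ 8 * n ^ 2 := by
    refine (Nat.mul_le_mul_left _ card_biUnion_le).trans ?_
    rw [mul_sum]
    refine (sum_le_sum fun j _ => hX j).trans ?_
    rw [← mul_sum]; nlinarith
  rw [← coe_edgeFinset, Set.ncard_coe_finset]
  have z1 := Nat.mul_le_mul_left k ((card_le_card cov).trans (card_union_le _ _))
  have z2 := Nat.mul_le_mul_left k hY
  rw [mul_add] at z1
  exact z1.trans (add_le_add hX' z2)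

theorem upper' (ε : ℝ) (hε : 0 < ε) : ∃ N : ℕ, ∀ (V : Type) [Fintype V], N ≤ Fintype.card V →
    ∀ (G : SimpleGraph V) (M : Sym2 V → ℕ), Set.InjOn M G.edgeSet → ¬ Has G M →
      (G.edgeSet.ncard : ℝ) ≤ ε * (Fintype.card V : ℝ) ^ 2 := by
  obtain ⟨k, hk⟩ := exists_nat_gt (9 / ε)
  have k0 : (0 : ℝ) < k := lt_trans (by positivity) hk
  refine ⟨k + k * (k ^ 2 * (6 * (k ^ 2) ^ 5 + 6)), fun V _ hn G M hM h => ?_⟩
  have := upper hM h k (by exact_mod_cast k0) (by omega)
  have h2 : k * G.edgeSet.ncard ≤ 9 * Fintype.card V ^ 2 := by nlinarith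
  have h3 : (k : ℝ) * G.edgeSet.ncard ≤ 9 * (Fintype.card V : ℝ) ^ 2 := by exact_mod_cast h2
  rw [div_lt_iff₀ hε] at hk
  refine le_of_mul_le_mul_left (h3.trans ?_) k0
  rw [← mul_assoc]
  exact mul_le_mul_of_nonneg_right hk.le (by positivity)

end Pool.Agent.H.EO
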